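import Pool.Agent.PLG.Stmts

set_option autoImplicit false

namespace Pool.Agent.PLG.H16

open Module

/-- **THN** -/
theorem thn (hcov : CovStmt) : ThnStmt := by
  intro d c C' hS
  refine ⟨C' * (1 + 2 * ((c + 2) * (d + 1))) + (c + 2) * (d + 1), ?_⟩
  intro E _ _ f G Θ L j hD hfd hrk hL hj hΘ hcnt hthin
  obtain ⟨e, he⟩ : ∃ e, e = (c + 2) * (d + 1) := ⟨_, rfl⟩
  rw [← he] at hj ⊢
  have hL1 : 1 ≤ L := by linarith
  have hL0 : 0 < L := by linarith
  have hLc : 1 ≤ L ^ c := one_le_pow₀ hL1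
  obtain ⟨τ, hτ⟩ : ∃ τ : ℝ, τ = 1 / L ^ c := ⟨_, rfl⟩
  rw [← hτ] at hthin
  have hτ0 : 0 < τ := by rw [hτ]; positivity
  have hτ1 : τ ≤ 1 := by
    rw [hτ, div_le_one (by positivity)]
    exact hLc
  obtain ⟨M, hM⟩ : ∃ M : ℝ, M = (4 * L ^ c) ^ (d + 1) := ⟨_, rfl⟩
  have hM0 : 0 < M := by rw [hM]; positivity
  have hML : M ≤ L ^ e := by
    rw [hM, he, pow_mul]
    apply pow_le_pow_left₀ (by positivity)
    have h4 : 4 ≤ L ^ 2 := by nlinarith
    calc 4 * L ^ c ≤ L ^ 2 * L ^ c := mul_le_mul_of_nonneg_right h4 (by positivity)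
      _ = L ^ (c + 2) := by ring
  -- the subgroup
  obtain ⟨G', hG'⟩ : ∃ G' : AddSubgroup ℂ, G' = G ⊓ (bs f G τ).toAddSubgroup := ⟨_, rfl⟩
  have hG'G : G' ≤ G := by rw [hG']; exact inf_le_left
  have hbsle : ∀ (V : AddSubgroup ℂ) (r : ℝ), V ≤ G → bs f V r ≤ sp G := by
    intro V r hV
    apply Submodule.span_mono
    intro x hx
    have h1 := (mem_bl (hD.mono hV)).1 (Finset.mem_coe.1 hx)
    exact hV h1.1
  have hlt : bs f G τ < sp G := by
    refine lt_of_le_of_ne (hbsle G τ le_rfl) ?_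
    intro h
    apply hthin
    intro x hx
    rw [h]
    exact le_sp hx
  have hrk1 : finrank ℚ (bs f G τ) < finrank ℚ (sp G) := Submodule.finrank_lt_finrank_of_lt hlt
  have hspG' : sp G' ≤ bs f G τ := by
    apply Submodule.span_le.2
    intro x hx
    have h1 : x ∈ G ⊓ (bs f G τ).toAddSubgroup := hG' ▸ hx
    exact h1.2
  have hfdb : FiniteDimensional ℚ (bs f G τ) := Submodule.finiteDimensional_of_le hlt.le
  have hfd' : FiniteDimensional ℚ (sp G') := Submodule.finiteDimensional_of_le (sp_mono hG'G)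
  have hrk' : finrank ℚ (sp G') ≤ d := by
    have h1 := Submodule.finrank_mono hspG'
    omega
  -- covering
  have hcv : ∀ V : AddSubgroup ℂ, V ≤ G → (cnt f V 1 : ℝ) ≤ M * cnt f V τ := by
    intro V hV
    have h1 := hcov E f V 1 τ (d + 1) (hD.mono hV) zero_le_one hτ0
      (by rw [← hrk]; exact Submodule.finrank_mono (hbsle V 1 hV))
    refine h1.trans (mul_le_mul_of_nonneg_right ?_ (Nat.cast_nonneg _))
    rw [hM]
    apply pow_le_pow_left₀ (by positivity)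
    rw [hτ, mul_one, div_div_eq_mul_div, div_one]
    linarith
  have hblG : bl f G' τ = bl f G τ := by
    ext x
    rw [mem_bl (hD.mono hG'G), mem_bl hD]
    constructor
    · rintro ⟨h1, h2⟩
      exact ⟨hG'G h1, h2⟩
    · rintro ⟨h1, h2⟩
      refine ⟨?_, h2⟩
      rw [hG']
      exact ⟨h1, Submodule.subset_span (Finset.mem_coe.2 ((mem_bl hD).2 ⟨h1, h2⟩))⟩
  have hcG : cnt f G' τ = cnt f G τ := by unfold cnt; rw [hblG]
  have hcl : ∀ t : ℝ, cnt f (lp G' t) τ = cnt f (lp G t) τ := by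
    intro t
    unfold cnt
    congr 1
    ext x
    rw [mem_bl ((hD.mono hG'G).lp t), mem_bl (hD.lp t), mem_lp, mem_lp]
    constructor
    · rintro ⟨⟨h1, h3⟩, h2⟩
      exact ⟨⟨hG'G h1, h3⟩, h2⟩
    · rintro ⟨⟨h1, h3⟩, h2⟩
      refine ⟨⟨?_, h3⟩, h2⟩
      rw [hG']
      exact ⟨h1, Submodule.subset_span (Finset.mem_coe.2 ((mem_bl hD).2 ⟨h1, h2⟩))⟩
  obtain ⟨L', hL'⟩ : ∃ L' : ℝ, L' = L ^ (1 + 2 * e) := ⟨_, rfl⟩
  have hL'0 : 0 < L' := by rw [hL']; positivity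
  have hL'2 : 2 ≤ L' := by
    rw [hL', pow_add, pow_one]
    have : 1 ≤ L ^ (2 * e) := one_le_pow₀ hL1
    nlinarith
  have hLM : L * M ^ 2 ≤ L' := by
    rw [hL', pow_add, pow_one, mul_comm 2 e, pow_mul]
    exact mul_le_mul_of_nonneg_left (pow_le_pow_left₀ hM0.le hML 2) hL0.le
  have hC : L' ^ C' * M ≤ L ^ (C' * (1 + 2 * e) + e) := by
    rw [hL', ← pow_mul, pow_add, mul_comm (1 + 2 * e) C']
    exact mul_le_mul_of_nonneg_left hML (by positivity)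
  obtain ⟨z, hz, hz2⟩ := hS E f G' Θ L' (j / M) τ (hD.mono hG'G) hfd' hrk' hL'2
    (by
      rw [le_div_iff₀ hM0]
      exact hC.trans hj) hτ0
    (by
      intro t ht
      rw [div_le_iff₀ hM0, hcl t, mul_comm]
      exact (hΘ t ht).trans (hcv (lp G t) lp_le))
    (by
      rw [hcG]
      have h1 : (cnt f G τ : ℝ) ≤ cnt f G 1 := by exact_mod_cast cnt_mono hD hτ1
      refine h1.trans (hcnt.trans ?_)
      have h2 : j = M * (j / M) := (mul_div_cancel₀ j hM0.ne').symm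
      have h3 : L * Θ.card * j ^ 2 = (L * M ^ 2) * (Θ.card * (j / M) ^ 2) := by
        have h4 : j ^ 2 = M ^ 2 * (j / M) ^ 2 := by rw [← mul_pow, ← h2]
        rw [h4]
        ring
      rw [h3, mul_assoc L' _ _]
      exact mul_le_mul_of_nonneg_right hLM (mul_nonneg (Nat.cast_nonneg _) (sq_nonneg _)))
  refine ⟨z, hz, ?_⟩
  have h1 := hcv G le_rfl
  have h2 : (cnt f (lz G' z) τ : ℝ) ≤ cnt f (lz G z) 1 := by
    have h3 : cnt f (lz G' z) τ ≤ cnt f (lz G z) τ :=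
      cnt_sub (hD.lz z) (inf_le_inf_right _ hG'G)
    exact_mod_cast h3.trans (cnt_mono (hD.lz z) hτ1)
  have h4 : ((cnt f (lz G' z) τ : ℝ)) ^ 2 ≤ (cnt f (lz G z) 1 : ℝ) ^ 2 :=
    pow_le_pow_left₀ (Nat.cast_nonneg _) h2 2
  calc (cnt f G 1 : ℝ) ≤ M * cnt f G τ := h1
    _ = M * cnt f G' τ := by rw [hcG]
    _ ≤ M * (L' ^ C' * (cnt f (lz G' z) τ : ℝ) ^ 2) := mul_le_mul_of_nonneg_left hz2 hM0.le
    _ = (L' ^ C' * M) * (cnt f (lz G' z) τ : ℝ) ^ 2 := by ring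
    _ ≤ L ^ (C' * (1 + 2 * e) + e) * (cnt f (lz G z) 1 : ℝ) ^ 2 :=
        mul_le_mul hC h4 (by positivity) (by positivity)

end Pool.Agent.PLG.H16
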